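import Pool.Agent.Helper65.TU.Stmts4
import Pool.Agent.Helper65.TU.Basic

/-!
# TU, row H1: weakly compact hulls in l_1-sums
-/

set_option autoImplicit false

open Set Filter Topology
open scoped ENNReal

namespace Pool.Agent.Helper65.TU

universe u v

theorem st_H1 (hT : ST_T1.{u, v}) : ST_H1.{u, v} := by
  classical
  intro Γ X _ _ A hA K hK c hc
  have hT' : ∀ n : ℕ, ∃ F : Finset Γ, ∀ x ∈ K, ∀ y : lp X 1, (∀ g ∈ F, y g = 0) →
      (∀ g, ‖y g‖ ≤ ‖x g‖) → ‖y‖ ≤ 1 / ((n : ℝ) + 1) := fun n =>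
    hT Γ X K hK _ (by positivity)
  choose F hF using hT'
  have hp : 0 < (1 : ℝ≥0∞).toReal := by simp
  refine ⟨{z : lp X 1 | (∀ g, z g ∈ A g) ∧ ∀ n : ℕ, ∀ G : Finset Γ, Disjoint G (F n) →
    ∑ g ∈ G, ‖z g‖ ≤ c / ((n : ℝ) + 1)}, ?_, ?_⟩
  · unfold WCpt
    rw [isCompact_iff_ultrafilter_le_nhds]
    intro U hU
    have hU' : ∀ᶠ a in (U : Filter (WeakSpace ℝ (lp X 1))),
        (∀ g, ((toWeakSpace ℝ (lp X 1)).symm a) g ∈ A g) ∧
        ∀ n : ℕ, ∀ G : Finset Γ, Disjoint G (F n) →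
        ∑ g ∈ G, ‖((toWeakSpace ℝ (lp X 1)).symm a) g‖ ≤ c / ((n : ℝ) + 1) := by
      have := le_principal_iff.1 hU
      filter_upwards [this] with a ha
      obtain ⟨y, hy, rfl⟩ := ha
      simpa using hy
    -- limits of the coordinates
    have h1 : ∀ g, ∃ z : X g, z ∈ A g ∧ ∀ φ : X g →L[ℝ] ℝ,
        Tendsto (fun a => φ (((toWeakSpace ℝ (lp X 1)).symm a) g)) U (𝓝 (φ z)) := by
      intro g
      have h2 := (hA g).ultrafilter_le_nhds
        (U.map (fun a => toWeakSpace ℝ (X g) (((toWeakSpace ℝ (lp X 1)).symm a) g)))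
        (le_principal_iff.2 (by
          rw [Ultrafilter.coe_map, Filter.mem_map]
          filter_upwards [hU'] with a ha
          exact ⟨_, ha.1 g, rfl⟩))
      obtain ⟨_, ⟨z, hz, rfl⟩, h3⟩ := h2
      exact ⟨z, hz, wk_tendsto.1 h3⟩
    choose z hz1 hz2 using h1
    choose φ hφ1 hφ2 using fun g => exists_dual_vector'' ℝ (z g)
    have h3 : ∀ n : ℕ, ∀ G : Finset Γ, Disjoint G (F n) →
        ∑ g ∈ G, ‖z g‖ ≤ c / ((n : ℝ) + 1) := by
      intro n G hG
      have t : Tendsto (fun a => ∑ g ∈ G, φ g (((toWeakSpace ℝ (lp X 1)).symm a) g)) U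
          (𝓝 (∑ g ∈ G, ‖z g‖)) := tendsto_finsetSum G fun g _ => by
        have h := hz2 g (φ g)
        rw [hφ2] at h
        exact h
      refine le_of_tendsto t ?_
      filter_upwards [hU'] with a ha
      refine le_trans (Finset.sum_le_sum fun g _ => ?_) (ha.2 n G hG)
      calc φ g (((toWeakSpace ℝ (lp X 1)).symm a) g)
          ≤ ‖φ g (((toWeakSpace ℝ (lp X 1)).symm a) g)‖ := le_abs_self _
        _ ≤ ‖φ g‖ * ‖((toWeakSpace ℝ (lp X 1)).symm a) g‖ := (φ g).le_opNorm _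
        _ ≤ 1 * ‖((toWeakSpace ℝ (lp X 1)).symm a) g‖ :=
            mul_le_mul_of_nonneg_right (hφ1 g) (norm_nonneg _)
        _ = _ := one_mul _
    have hmem : Memℓp z 1 := by
      refine memℓp_gen' (C := c / ((0 : ℕ) + 1) + ∑ g ∈ F 0, ‖z g‖) fun s => ?_
      simp only [ENNReal.toReal_one, Real.rpow_one]
      rw [← Finset.sum_inter_add_sum_sdiff s (F 0)]
      have h4 := h3 0 (s \ F 0) Finset.sdiff_disjoint
      have h5 : ∑ g ∈ s ∩ F 0, ‖z g‖ ≤ ∑ g ∈ F 0, ‖z g‖ :=
        Finset.sum_le_sum_of_subset_of_nonneg Finset.inter_subset_right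
          fun _ _ _ => norm_nonneg _
      linarith
    set zz : lp X 1 := ⟨z, hmem⟩ with hzz
    refine ⟨toWeakSpace ℝ (lp X 1) zz, ⟨zz, ⟨hz1, h3⟩, rfl⟩, ?_⟩
    have key : ∀ f : lp X 1 →L[ℝ] ℝ,
        Tendsto (fun a => f ((toWeakSpace ℝ (lp X 1)).symm a)) U (𝓝 (f zz)) := by
      intro f
      rw [Metric.tendsto_nhds]
      intro ε hε
      obtain ⟨n, hn⟩ := exists_nat_gt ((‖f‖ * (2 * c)) / (ε / 2))
      have hn1 : (0 : ℝ) < (n : ℝ) + 1 := by positivity
      have hn' : ‖f‖ * (2 * c / ((n : ℝ) + 1)) < ε / 2 := by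
        rw [div_lt_iff₀ (by positivity)] at hn
        rw [← mul_div_assoc, div_lt_iff₀ hn1]
        nlinarith
      have t1 : Tendsto (fun a => ∑ g ∈ F n,
          f (lp.single 1 g (((toWeakSpace ℝ (lp X 1)).symm a - zz) g))) U (𝓝 0) := by
        have : Tendsto (fun a => ∑ g ∈ F n,
            f (lp.single 1 g (((toWeakSpace ℝ (lp X 1)).symm a - zz) g))) U
            (𝓝 (∑ g ∈ F n, (0 : ℝ))) := by
          refine tendsto_finsetSum _ fun g _ => ?_
          have hcont : Continuous (fun x : X g => lp.single (E := X) 1 g x) :=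
            (lp.isometry_single (E := X) (p := 1) g).continuous
          have h6 := (hz2 g (f.comp ⟨lp.lsingle (𝕜 := ℝ) (E := X) 1 g, hcont⟩)).sub_const
            ((f.comp ⟨lp.lsingle (𝕜 := ℝ) (E := X) 1 g, hcont⟩) (z g))
          rw [sub_self] at h6
          refine h6.congr fun a => ?_
          rw [← map_sub]
          rfl
        simpa using this
      rw [Metric.tendsto_nhds] at t1
      filter_upwards [hU', t1 (ε / 2) (by positivity)] with a ha1 ha2
      rw [Real.dist_eq, sub_zero] at ha2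
      rw [Real.dist_eq]
      set h : lp X 1 := (toWeakSpace ℝ (lp X 1)).symm a - zz with hh
      have e0 : f ((toWeakSpace ℝ (lp X 1)).symm a) - f zz = f h := (map_sub f _ _).symm
      set s : lp X 1 := ∑ g ∈ F n, lp.single 1 g (h g) with hs
      have e1 : ∀ g, (h - s) g = if g ∈ F n then 0 else h g := by
        intro g
        rw [hs, lp.coeFn_sub, Pi.sub_apply, lp.coeFn_sum, Finset.sum_apply]
        simp only [lp.coeFn_single]
        rw [Finset.sum_pi_single]
        split_ifs <;> simp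
      have e2 : ‖h - s‖ ≤ 2 * c / ((n : ℝ) + 1) := by
        refine lp.norm_le_of_forall_sum_le hp (by positivity) fun t => ?_
        simp only [ENNReal.toReal_one, Real.rpow_one]
        have e3 : ∑ g ∈ t, ‖(h - s) g‖ = ∑ g ∈ t \ F n, ‖h g‖ := by
          rw [← Finset.sum_inter_add_sum_sdiff t (F n)]
          have e4 : ∑ g ∈ t ∩ F n, ‖(h - s) g‖ = 0 := by
            refine Finset.sum_eq_zero fun g hg => ?_
            rw [e1, if_pos (Finset.mem_inter.1 hg).2, norm_zero]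
          rw [e4, zero_add]
          refine Finset.sum_congr rfl fun g hg => ?_
          rw [e1, if_neg (Finset.mem_sdiff.1 hg).2]
        rw [e3]
        have e5 : ∀ g, ‖h g‖ ≤ ‖((toWeakSpace ℝ (lp X 1)).symm a) g‖ + ‖z g‖ := by
          intro g
          rw [hh, lp.coeFn_sub, Pi.sub_apply]
          exact norm_sub_le _ _
        calc ∑ g ∈ t \ F n, ‖h g‖
            ≤ ∑ g ∈ t \ F n, (‖((toWeakSpace ℝ (lp X 1)).symm a) g‖ + ‖z g‖) :=
              Finset.sum_le_sum fun g _ => e5 g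
          _ = ∑ g ∈ t \ F n, ‖((toWeakSpace ℝ (lp X 1)).symm a) g‖ +
                ∑ g ∈ t \ F n, ‖z g‖ := Finset.sum_add_distrib
          _ ≤ c / ((n : ℝ) + 1) + c / ((n : ℝ) + 1) :=
              add_le_add (ha1.2 n _ Finset.sdiff_disjoint) (h3 n _ Finset.sdiff_disjoint)
          _ = 2 * c / ((n : ℝ) + 1) := by ring
      have e7 : f s = ∑ g ∈ F n, f (lp.single 1 g (h g)) := by rw [hs, map_sum]
      have e8 : f h = f (h - s) + ∑ g ∈ F n, f (lp.single 1 g (h g)) := by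
        have e6 : f (h - s) = f h - f s := map_sub f h s
        rw [e6, e7]
        ring
      rw [e0, e8]
      have e9 : |f (h - s)| ≤ ‖f‖ * (2 * c / ((n : ℝ) + 1)) :=
        (f.le_opNorm _).trans (mul_le_mul_of_nonneg_left e2 (norm_nonneg _))
      calc |f (h - s) + ∑ g ∈ F n, f (lp.single 1 g (h g))|
          ≤ |f (h - s)| + |∑ g ∈ F n, f (lp.single 1 g (h g))| := abs_add_le _ _
        _ < ε := by linarith
    have h14 := wk_tendsto.2 key
    have h15 : (fun a => toWeakSpace ℝ (lp X 1) ((toWeakSpace ℝ (lp X 1)).symm a)) = id := by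
      funext a
      simp
    rw [h15] at h14
    exact h14
  · rintro y hyA ⟨x, hx, hxy⟩
    refine ⟨hyA, fun n G hG => ?_⟩
    set w : lp X 1 := ∑ g ∈ G, lp.single 1 g (x g) with hw
    have e1 : ∀ g, w g = if g ∈ G then x g else 0 := by
      intro g
      rw [hw, lp.coeFn_sum, Finset.sum_apply]
      simp only [lp.coeFn_single]
      rw [Finset.sum_pi_single]
    have e2 := hF n x hx w (fun g hg => by
        rw [e1, if_neg (fun h => Finset.disjoint_left.1 hG h hg)]) (fun g => by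
        rw [e1]; split_ifs
        · exact le_rfl
        · simp)
    have e3 : ‖w‖ = ∑ g ∈ G, ‖x g‖ := by
      have := lp.norm_sum_single hp x G
      simpa using this
    rw [e3] at e2
    calc ∑ g ∈ G, ‖y g‖ ≤ ∑ g ∈ G, c * ‖x g‖ := Finset.sum_le_sum fun g _ => hxy g
      _ = c * ∑ g ∈ G, ‖x g‖ := by rw [Finset.mul_sum]
      _ ≤ c * (1 / ((n : ℝ) + 1)) := mul_le_mul_of_nonneg_left e2 hc
      _ = c / ((n : ℝ) + 1) := by ring

end Pool.Agent.Helper65.TU
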