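import Pool.Agent.Helper65.TU.Basic
import Pool.Agent.Helper65.TU.Stmts5

open Set Filter Topology

namespace Pool.Agent.Helper65.TU

universe u

/-- f = 0 on ker T: then f = g ∘ T with g bounded. -/
theorem rq1_factor {X Z : Type u} [NormedAddCommGroup X] [NormedSpace ℝ X]
    [NormedAddCommGroup Z] [NormedSpace ℝ Z] {a : ℝ} {T : X →L[ℝ] Z}
    (h1 : ∀ z, ∃ x, T x = z ∧ ‖x‖ ≤ a * ‖z‖) (f : X →L[ℝ] ℝ) (hf : ∀ x, T x = 0 → f x = 0) :
    ∃ g : Z →L[ℝ] ℝ, ∀ x, g (T x) = f x := by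
  choose l hl hn using h1
  have key : ∀ x x', T x = T x' → f x = f x' := by
    intro x x' hx
    have := hf (x - x') (by rw [map_sub, hx, sub_self])
    rw [map_sub] at this
    linarith
  let g0 : Z →ₗ[ℝ] ℝ :=
    { toFun := fun z => f (l z)
      map_add' := by
        intro y z
        rw [← map_add]
        exact key _ _ (by rw [map_add, hl, hl, hl])
      map_smul' := by
        intro c z
        rw [RingHom.id_apply, ← map_smul]
        exact key _ _ (by rw [map_smul, hl, hl]) }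
  refine ⟨g0.mkContinuous (‖f‖ * a) ?_, ?_⟩
  · intro z
    change ‖f (l z)‖ ≤ _
    calc ‖f (l z)‖ ≤ ‖f‖ * ‖l z‖ := f.le_opNorm _
      _ ≤ ‖f‖ * (a * ‖z‖) := mul_le_mul_of_nonneg_left (hn z) (norm_nonneg _)
      _ = ‖f‖ * a * ‖z‖ := by ring
  · intro x
    change f (l (T x)) = f x
    exact key _ _ (hl _)

theorem rq1_dual {K : Type u} [NormedAddCommGroup K] [NormedSpace ℝ K] (hK : Reflexive K)
    (φ : (K →L[ℝ] ℝ) → ℝ) (hadd : ∀ g h, φ (g + h) = φ g + φ h)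
    (hsmul : ∀ (c : ℝ) g, φ (c • g) = c * φ g) (C : ℝ) (hb : ∀ g, |φ g| ≤ C * ‖g‖) :
    ∃ y : K, ∀ g : K →L[ℝ] ℝ, g y = φ g := by
  let η0 : (K →L[ℝ] ℝ) →ₗ[ℝ] ℝ :=
    { toFun := φ
      map_add' := hadd
      map_smul' := by
        intro c g
        rw [hsmul, RingHom.id_apply, smul_eq_mul] }
  obtain ⟨y, hy⟩ := hK (η0.mkContinuous C (fun g => hb g))
  exact ⟨y, fun g => congrArg (fun ψ : (K →L[ℝ] ℝ) →L[ℝ] ℝ => ψ g) hy⟩

theorem st_RQ1 : ST_RQ1 := by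
  intro X Z _ _ _ _ a T hT M hM r
  unfold WCpt
  rw [isCompact_iff_ultrafilter_le_nhds]
  intro U hU
  set e : WeakSpace ℝ X → X := fun y => (toWeakSpace ℝ X).symm y with he
  have hS : ∀ᶠ y in (U : Filter (WeakSpace ℝ X)), T (e y) ∈ M ∧ ‖e y‖ ≤ r := by
    have := le_principal_iff.1 hU
    filter_upwards [this] with y hy
    obtain ⟨x, hx, rfl⟩ := hy
    simpa [he] using hx
  have hr : 0 ≤ r := by
    obtain ⟨y, hy⟩ := hS.exists
    exact (norm_nonneg _).trans hy.2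
  -- the limits
  have hΛ : ∀ f : X →L[ℝ] ℝ, ∃ L : ℝ, |L| ≤ ‖f‖ * r ∧
      Tendsto (fun y => f (e y)) (U : Filter (WeakSpace ℝ X)) (𝓝 L) := by
    intro f
    have h1 := (isCompact_closedBall (0 : ℝ) (‖f‖ * r)).ultrafilter_le_nhds
      (U.map (fun y => f (e y))) (le_principal_iff.2 (by
        rw [Ultrafilter.mem_coe, Ultrafilter.mem_map]
        filter_upwards [hS] with y hy
        rw [mem_preimage, mem_closedBall_zero_iff]
        exact (f.le_opNorm _).trans (mul_le_mul_of_nonneg_left hy.2 (norm_nonneg _))))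
    obtain ⟨L, hL, h2⟩ := h1
    refine ⟨L, ?_, h2⟩
    rwa [mem_closedBall_zero_iff, Real.norm_eq_abs] at hL
  choose Λ hΛb hΛt using hΛ
  -- the limit in Z
  obtain ⟨_, ⟨m, hm, rfl⟩, h2⟩ := hM.ultrafilter_le_nhds
    (U.map (fun y => toWeakSpace ℝ Z (T (e y)))) (le_principal_iff.2 (by
      rw [Ultrafilter.mem_coe, Ultrafilter.mem_map]
      filter_upwards [hS] with y hy
      exact ⟨_, hy.1, rfl⟩))
  have hmt : ∀ g : Z →L[ℝ] ℝ, Tendsto (fun y => g (T (e y))) (U : Filter (WeakSpace ℝ X))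
      (𝓝 (g m)) := wk_tendsto.1 h2
  obtain ⟨x₀, hx₀, -⟩ := hT.lift m
  have hΛ0 : ∀ f : X →L[ℝ] ℝ, (∀ x, T x = 0 → f x = 0) → Λ f = f x₀ := by
    intro f hf
    obtain ⟨g, hg⟩ := rq1_factor hT.lift f hf
    have h3 := hmt g
    simp only [hg] at h3
    rw [tendsto_nhds_unique (hΛt f) h3, ← hx₀, hg]
  have hΛadd : ∀ f g : X →L[ℝ] ℝ, Λ (f + g) = Λ f + Λ g := fun f g =>
    tendsto_nhds_unique (hΛt (f + g)) ((hΛt f).add (hΛt g))
  have hΛsmul : ∀ (c : ℝ) (f : X →L[ℝ] ℝ), Λ (c • f) = c * Λ f := fun c f =>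
    tendsto_nhds_unique (hΛt (c • f)) ((hΛt f).const_mul c)
  have hΛsub : ∀ f g : X →L[ℝ] ℝ, Λ (f - g) = Λ f - Λ g := fun f g =>
    tendsto_nhds_unique (hΛt (f - g)) ((hΛt f).sub (hΛt g))
  -- functionals which agree on the kernel
  have hag : ∀ f g : X →L[ℝ] ℝ, (∀ x, T x = 0 → f x = g x) → Λ f - f x₀ = Λ g - g x₀ := by
    intro f g hfg
    have := hΛ0 (f - g) (fun x hx => by simp [hfg x hx])
    rw [hΛsub] at this
    simp only [_root_.sub_apply] at this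
    linarith
  have hext : ∀ g : (LinearMap.ker (T : X →ₗ[ℝ] Z)) →L[ℝ] ℝ, ∃ g' : X →L[ℝ] ℝ,
      (∀ x : LinearMap.ker (T : X →ₗ[ℝ] Z), g' x = g x) ∧ ‖g'‖ = ‖g‖ :=
    fun g => exists_extension_norm_eq _ g
  choose E hE hEn using hext
  obtain ⟨y₀, hy⟩ := rq1_dual hT.refl (fun g => Λ (E g) - E g x₀)
    (by
      intro g h
      change Λ (E (g + h)) - E (g + h) x₀ = (Λ (E g) - E g x₀) + (Λ (E h) - E h x₀)
      rw [hag (E (g + h)) (E g + E h) (fun x hx => by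
        have hk : x ∈ LinearMap.ker (T : X →ₗ[ℝ] Z) := hx
        have h1 := hE (g + h) ⟨x, hk⟩
        have h2 := hE g ⟨x, hk⟩
        have h3 := hE h ⟨x, hk⟩
        simp only [_root_.add_apply] at h1 ⊢
        rw [h1, h2, h3]), hΛadd]
      simp only [_root_.add_apply]
      ring)
    (by
      intro c g
      change Λ (E (c • g)) - E (c • g) x₀ = c * (Λ (E g) - E g x₀)
      rw [hag (E (c • g)) (c • E g) (fun x hx => by
        have hk : x ∈ LinearMap.ker (T : X →ₗ[ℝ] Z) := hx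
        have h1 := hE (c • g) ⟨x, hk⟩
        have h2 := hE g ⟨x, hk⟩
        simp only [_root_.smul_apply] at h1 ⊢
        rw [h1, h2]), hΛsmul]
      simp only [_root_.smul_apply, smul_eq_mul]
      ring)
    (r + ‖x₀‖)
    (by
      intro g
      change |Λ (E g) - E g x₀| ≤ _
      calc |Λ (E g) - E g x₀| ≤ |Λ (E g)| + |E g x₀| := abs_sub _ _
        _ ≤ ‖E g‖ * r + ‖E g‖ * ‖x₀‖ := add_le_add (hΛb (E g)) ((E g).le_opNorm _)
        _ = (r + ‖x₀‖) * ‖g‖ := by rw [hEn]; ring)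
  have hlim : ∀ f : X →L[ℝ] ℝ, Λ f = f (x₀ + y₀) := by
    intro f
    have h1 := hy (f.comp (Submodule.subtypeL (LinearMap.ker (T : X →ₗ[ℝ] Z))))
    have h2 := hag f (E (f.comp (Submodule.subtypeL (LinearMap.ker (T : X →ₗ[ℝ] Z))))) (by
      intro x hx
      have hk : x ∈ LinearMap.ker (T : X →ₗ[ℝ] Z) := hx
      have h3 := hE (f.comp (Submodule.subtypeL (LinearMap.ker (T : X →ₗ[ℝ] Z)))) ⟨x, hk⟩
      rw [h3]
      rfl)
    rw [← h1] at h2
    have h4 : (f.comp (Submodule.subtypeL (LinearMap.ker (T : X →ₗ[ℝ] Z)))) y₀ = f (y₀ : X) := rfl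
    rw [h4] at h2
    rw [map_add]
    linarith
  refine ⟨toWeakSpace ℝ X (x₀ + y₀), ⟨x₀ + y₀, ⟨?_, ?_⟩, rfl⟩, ?_⟩
  · have h0 : T (y₀ : X) = 0 := y₀.2
    rw [map_add, hx₀, h0, add_zero]
    exact hm
  · refine NormedSpace.norm_le_dual_bound ℝ _ hr fun f => ?_
    rw [← hlim f, Real.norm_eq_abs]
    exact (hΛb f).trans (le_of_eq (mul_comm _ _))
  · have h5 : Tendsto (fun y => toWeakSpace ℝ X (e y)) (U : Filter (WeakSpace ℝ X))
        (𝓝 (toWeakSpace ℝ X (x₀ + y₀))) := by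
      rw [wk_tendsto]
      intro f
      rw [← hlim f]
      exact hΛt f
    have h6 : (fun y => toWeakSpace ℝ X (e y)) = id := by
      funext y
      simp [he]
    rw [h6] at h5
    exact h5

end Pool.Agent.Helper65.TU
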